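import Pool.Agent.Helper92.PO.Stmts

/-!
# VTL: a labelling of the box with the local conditions gives a valid labelling of a finite set
-/

set_option autoImplicit false

namespace Pool.Agent.Helper92.PO

/-- the labelling in coordinates -/
def vtlG (n : ℕ) (f : ℕ → ℕ → Lab) (X Y : ℕ) : Lab := f ((X / wd n) * LL n + Y) (X % wd n)

theorem vtl_Hc_zero (u v : Lab) (hu : u.1 = 0) (hv : v.1 = 0) : Hc u v = true := by
  unfold Hc sm par
  simp [hu, hv]

theorem vtl_Vc_zero (u v : Lab) (hu : u.1 = 0) (hv : v.1 = 0) : Vc u v = true := by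
  unfold Vc sm par
  simp [hu, hv]

theorem vtl_wd_pos (n : ℕ) : 0 < wd n := Nat.succ_pos _

theorem vtl_coord (n X Y : ℕ) (hX : X < JJ n * wd n) (hY : Y < LL n) :
    (X / wd n) * LL n + Y < KK n ∧ ((X / wd n) * LL n + Y) / LL n = X / wd n ∧
      ((X / wd n) * LL n + Y) % LL n = Y ∧ X % wd n < wd n ∧ (X / wd n) * wd n + X % wd n = X := by
  have hw := vtl_wd_pos n
  have hL : 0 < LL n := by unfold LL; omega
  have h1 : X / wd n < JJ n := (Nat.div_lt_iff_lt_mul hw).2 hX
  refine ⟨?_, ?_, ?_, Nat.mod_lt _ hw, ?_⟩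
  · unfold KK
    calc (X / wd n) * LL n + Y < (X / wd n) * LL n + LL n := by omega
      _ = (X / wd n + 1) * LL n := by ring
      _ ≤ JJ n * LL n := Nat.mul_le_mul_right _ h1
  · rw [Nat.add_comm, Nat.add_mul_div_right _ _ hL, Nat.div_eq_of_lt hY, Nat.zero_add]
  · rw [Nat.add_comm, Nat.add_mul_mod_self_right, Nat.mod_eq_of_lt hY]
  · rw [Nat.mul_comm]
    exact Nat.div_add_mod X (wd n)

theorem vtl_G1 {n σ : ℕ} {f : ℕ → ℕ → Lab} (h : Loc n σ f) (X Y : ℕ) (hX : X < JJ n * wd n)
    (hY : Y < LL n) : (vtlG n f X Y).1 = 1 ↔ (X = σ + 1 ∧ Y = n + 1) := by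
  obtain ⟨h1, h2, h3, h4, h5⟩ := vtl_coord n X Y hX hY
  have h6 := (h.1 _ h1 _ h4).1
  rw [h2, h3, h5] at h6
  exact h6

theorem vtl_G2 {n σ : ℕ} {f : ℕ → ℕ → Lab} (h : Loc n σ f) (X Y : ℕ) (hX : X < JJ n * wd n)
    (hY : Y < LL n) (hm : mustEmpty n σ X Y = true) : (vtlG n f X Y).1 = 0 := by
  obtain ⟨h1, h2, h3, h4, h5⟩ := vtl_coord n X Y hX hY
  have h6 := (h.1 _ h1 _ h4).2
  rw [h2, h3, h5] at h6
  exact h6 hm

theorem vtl_G3 {n σ : ℕ} {f : ℕ → ℕ → Lab} (h : Loc n σ f) (X Y : ℕ) (hX : X < JJ n * wd n)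
    (hY : Y + 1 < LL n) : Vc (vtlG n f X Y) (vtlG n f X (Y + 1)) = true := by
  obtain ⟨h1, h2, h3, h4, h5⟩ := vtl_coord n X (Y + 1) hX hY
  exact h.2.1 ((X / wd n) * LL n + Y) (by rw [Nat.add_assoc]; exact h1) _ h4

theorem vtl_G4 {n σ : ℕ} {f : ℕ → ℕ → Lab} (h : Loc n σ f) (X Y : ℕ) (hX : X + 1 < JJ n * wd n)
    (hY : Y < LL n) : Hc (vtlG n f X Y) (vtlG n f (X + 1) Y) = true := by
  obtain ⟨h1, h2, h3, h4, h5⟩ := vtl_coord n X Y (by omega) hY
  obtain ⟨k1, k2, k3, k4, k5⟩ := vtl_coord n (X + 1) Y hX hY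
  have hw := vtl_wd_pos n
  unfold vtlG at *
  rcases Nat.lt_or_ge (X % wd n + 1) (wd n) with hc | hc
  · have e1 : (X + 1) / wd n = X / wd n := by
      rw [Nat.div_eq_iff hw]
      constructor
      · calc X / wd n * wd n ≤ X := Nat.div_mul_le_self X (wd n)
          _ ≤ X + 1 := Nat.le_succ X
      · omega
    have e2 : (X + 1) % wd n = X % wd n + 1 := by
      rw [e1] at k5
      omega
    rw [e1, e2]
    exact h.2.2.1 _ h1 _ hc
  · have e0 : X % wd n = wd n - 1 := by omega
    have e1 : (X + 1) / wd n = X / wd n + 1 := by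
      have e3 : X + 1 = (X / wd n + 1) * wd n := by
        rw [Nat.add_mul, Nat.one_mul]
        omega
      rw [e3, Nat.mul_div_cancel _ hw]
    have e2 : (X + 1) % wd n = 0 := by
      have e3 : X + 1 = (X / wd n + 1) * wd n := by
        rw [Nat.add_mul, Nat.one_mul]
        omega
      rw [e3, Nat.mul_mod_left]
    rw [e1] at k1 ⊢
    rw [e2, e0]
    have e4 : (X / wd n + 1) * LL n + Y = (X / wd n) * LL n + Y + LL n := by ring
    rw [e4] at k1 ⊢
    exact h.2.2.2 _ k1

theorem vtl_cases (n σ : ℕ) (f : ℕ → ℕ → Lab) (a : Cell) :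
    (∃ X Y : ℕ, X < JJ n * wd n ∧ Y < LL n ∧ a.1 + σ + 1 = X ∧ a.2 + n + 1 = Y ∧
      ext n σ f a = vtlG n f X Y) ∨
    (ext n σ f a = (0, 0) ∧ ¬ (0 ≤ a.1 + σ + 1 ∧ a.1 + σ + 1 < (JJ n * wd n : ℕ) ∧
      0 ≤ a.2 + n + 1 ∧ a.2 + n + 1 < (LL n : ℕ))) := by
  by_cases h : 0 ≤ a.1 + σ + 1 ∧ a.1 + σ + 1 < (JJ n * wd n : ℕ) ∧
      0 ≤ a.2 + n + 1 ∧ a.2 + n + 1 < (LL n : ℕ)
  · left
    refine ⟨(a.1 + σ + 1).toNat, (a.2 + n + 1).toNat, ?_, ?_, ?_, ?_, ?_⟩
    · have h1 := h.1
      have h2 := h.2.1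
      generalize JJ n * wd n = M at h2 ⊢
      omega
    · have h1 := h.2.2.1
      have h2 := h.2.2.2
      omega
    · exact (Int.toNat_of_nonneg h.1).symm
    · exact (Int.toNat_of_nonneg h.2.2.1).symm
    · unfold ext vtlG
      rw [if_pos h]
  · right
    refine ⟨?_, h⟩
    unfold ext
    rw [if_neg h]

theorem st_VTL : ST_VTL := by
  intro n σ f hσ hf hL
  have hM : σ + 1 < JJ n * wd n := by
    unfold JJ
    nlinarith [vtl_wd_pos n]
  have hLL : LL n = 2 * n + 2 := rfl
  refine ⟨((Finset.Icc (-(σ : ℤ) - 1) (JJ n * wd n : ℕ)) ×ˢ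
    (Finset.Icc (-(n : ℤ) - 1) (LL n : ℕ))).filter (fun a => (ext n σ f a).1 ≠ 0), ?_, ?_⟩
  · refine ⟨?_, ?_, ?_, ?_, ?_⟩
    · intro a
      rw [Finset.mem_filter]
      constructor
      · exact fun h => h.2
      · intro h
        refine ⟨?_, h⟩
        rcases vtl_cases n σ f a with ⟨X, Y, hX, hY, h1, h2, _⟩ | ⟨h1, _⟩
        · rw [Finset.mem_product, Finset.mem_Icc, Finset.mem_Icc]
          generalize JJ n * wd n = M at hX ⊢
          refine ⟨⟨?_, ?_⟩, ?_, ?_⟩ <;> omega
        · rw [h1] at h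
          exact absurd rfl h
    · intro a
      rcases vtl_cases n σ f a with ⟨X, Y, hX, hY, h1, h2, h3⟩ | ⟨h1, _⟩
      · rw [h3]
        exact hf _ _
      · rw [h1]
        exact List.mem_cons_self
    · intro a
      rcases vtl_cases n σ f a with ⟨X, Y, hX, hY, h1, h2, h3⟩ | ⟨h1, h2⟩
      · rw [h3, vtl_G1 hL X Y hX hY]
        constructor
        · rintro ⟨e1, e2⟩
          refine Prod.ext ?_ ?_
          · show a.1 = 0
            subst e1
            push_cast at h1
            omega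
          · show a.2 = 0
            subst e2
            push_cast at h2
            omega
        · intro h
          subst h
          simp only at h1 h2
          omega
      · rw [h1]
        constructor
        · intro h
          exact absurd h (by decide)
        · intro h
          exfalso
          apply h2
          subst h
          simp only
          generalize JJ n * wd n = M at hM ⊢
          refine ⟨?_, ?_, ?_, ?_⟩ <;> omega
    · intro a
      rcases vtl_cases n σ f a with ⟨X, Y, hX, hY, h1, h2, h3⟩ | ⟨h1, h2⟩ <;>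
      rcases vtl_cases n σ f (a.1 + 1, a.2) with ⟨X', Y', hX', hY', h1', h2', h3'⟩ | ⟨h1', h2'⟩
      · simp only at h1' h2'
        have e1 : X' = X + 1 := by omega
        have e2 : Y' = Y := by omega
        subst e1 e2
        rw [h3, h3']
        exact vtl_G4 hL X Y' hX' hY'
      · rw [h3, h1']
        refine vtl_Hc_zero _ _ ?_ rfl
        refine vtl_G2 hL X Y hX hY ?_
        have e1 : X + 1 = JJ n * wd n := by
          simp only at h2'
          generalize JJ n * wd n = M at hX h2' ⊢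
          omega
        unfold mustEmpty
        simp [e1]
      · rw [h1, h3']
        refine vtl_Hc_zero _ _ rfl ?_
        refine vtl_G2 hL X' Y' hX' hY' ?_
        simp only at h1' h2'
        have e1 : X' = 0 := by
          generalize JJ n * wd n = M at hX' h2
          omega
        unfold mustEmpty
        simp [e1]
      · rw [h1, h1']
        exact vtl_Hc_zero _ _ rfl rfl
    · intro a
      rcases vtl_cases n σ f a with ⟨X, Y, hX, hY, h1, h2, h3⟩ | ⟨h1, h2⟩ <;>
      rcases vtl_cases n σ f (a.1, a.2 + 1) with ⟨X', Y', hX', hY', h1', h2', h3'⟩ | ⟨h1', h2'⟩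
      · simp only at h1' h2'
        have e1 : X' = X := by omega
        have e2 : Y' = Y + 1 := by omega
        subst e1 e2
        rw [h3, h3']
        exact vtl_G3 hL X' Y hX' hY'
      · rw [h3, h1']
        refine vtl_Vc_zero _ _ ?_ rfl
        refine vtl_G2 hL X Y hX hY ?_
        have e1 : Y = 2 * n + 1 := by
          simp only at h2'
          generalize JJ n * wd n = M at hX h2' ⊢
          omega
        unfold mustEmpty
        simp [e1]
      · rw [h1, h3']
        refine vtl_Vc_zero _ _ rfl ?_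
        refine vtl_G2 hL X' Y' hX' hY' ?_
        simp only at h1' h2'
        have e1 : Y' = 0 := by
          generalize JJ n * wd n = M at hX' h2
          omega
        unfold mustEmpty
        simp [e1]
      · rw [h1, h1']
        exact vtl_Vc_zero _ _ rfl rfl
  · intro a ha
    rw [Finset.mem_filter] at ha
    have h := ha.2
    rcases vtl_cases n σ f a with ⟨X, Y, hX, hY, h1, h2, h3⟩ | ⟨h1, _⟩
    · rw [h3] at h
      have hne : mustEmpty n σ X Y ≠ true := fun hm => h (vtl_G2 hL X Y hX hY hm)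
      have e3 : ¬ X < σ + 1 := fun hc => hne (by unfold mustEmpty; simp [hc])
      have e4 : ¬ (X = σ + 1 ∧ Y < n + 1) :=
        fun hc => hne (by unfold mustEmpty; simp [hc.1, hc.2])
      omega
    · rw [h1] at h
      exact absurd rfl h

end Pool.Agent.Helper92.PO
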