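import Pool.Agent.Helper92.PO.Stmts

/-!
# TAB: the tables contain the values of `W`
-/

set_option autoImplicit false

namespace Pool.Agent.Helper92.PO

theorem tab_look_map (F : Sta → ℕ) (st : Sta) (l : List Sta) :
    look (l.map fun s => (s, F s)) st = if st ∈ l then F st else 0 := by
  induction l with
  | nil => simp [look]
  | cons a t ih =>
    rw [List.map_cons]
    show (if a = st then F a else look (t.map fun s => (s, F s)) st) = _
    by_cases h : a = st
    · subst h
      simp
    · rw [if_neg h, ih]
      have h' : st ≠ a := fun e => h e.symm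
      simp [h']

theorem tab_mem_allL {α : Type} (l : List α) (k : ℕ) (t : List α) :
    t ∈ allL l k ↔ t.length = k ∧ ∀ a ∈ t, a ∈ l := by
  induction k generalizing t with
  | zero =>
    show t ∈ [[]] ↔ _
    rw [List.mem_singleton]
    constructor
    · intro h
      subst h
      simp
    · rintro ⟨h, _⟩
      exact List.length_eq_zero_iff.1 h
  | succ k ih =>
    show t ∈ (allL l k).flatMap (fun t => l.map fun a => a :: t) ↔ _
    rw [List.mem_flatMap]
    constructor
    · rintro ⟨s, hs, ht⟩
      rw [List.mem_map] at ht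
      obtain ⟨a, ha, rfl⟩ := ht
      obtain ⟨h1, h2⟩ := (ih s).1 hs
      refine ⟨by rw [List.length_cons, h1], ?_⟩
      intro b hb
      rw [List.mem_cons] at hb
      rcases hb with hb | hb
      · rw [hb]; exact ha
      · exact h2 b hb
    · rintro ⟨h1, h2⟩
      cases t with
      | nil => simp at h1
      | cons a s =>
        refine ⟨s, (ih s).2 ⟨by simpa using h1, fun b hb => h2 b (List.mem_cons_of_mem _ hb)⟩, ?_⟩
        rw [List.mem_map]
        exact ⟨a, h2 a List.mem_cons_self, rfl⟩

theorem tab_mem_ents (n : ℕ) (e : Lab × ℕ) : e ∈ ents n ↔ e.1 ∈ labs n ∧ e.2 ≤ KK n := by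
  unfold ents
  rw [List.mem_flatMap]
  constructor
  · rintro ⟨v, hv, he⟩
    rw [List.mem_map] at he
    obtain ⟨c, hc, rfl⟩ := he
    rw [List.mem_range] at hc
    exact ⟨hv, by show c ≤ KK n; omega⟩
  · rintro ⟨h1, h2⟩
    refine ⟨e.1, h1, ?_⟩
    rw [List.mem_map]
    exact ⟨e.2, List.mem_range.2 (by omega), rfl⟩

theorem tab_mem_states (n : ℕ) (st : Sta) :
    st ∈ states n ↔ st.1 ∈ labs n ∧ st.2.length = wd n ∧ ∀ e ∈ st.2, e ∈ ents n := by
  unfold states
  rw [List.mem_flatMap]
  constructor
  · rintro ⟨v, hv, he⟩
    rw [List.mem_map] at he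
    obtain ⟨q, hq, rfl⟩ := he
    rw [tab_mem_allL] at hq
    exact ⟨hv, hq⟩
  · rintro ⟨h1, h2⟩
    refine ⟨st.1, h1, ?_⟩
    rw [List.mem_map]
    exact ⟨st.2, (tab_mem_allL _ _ _).2 h2, rfl⟩

theorem tab_sum_nxt (st : Sta) (v : Lab) :
    (st.2.map Prod.snd).sum ≤ ((nxt st v).2.map Prod.snd).sum := by
  show (st.2.map Prod.snd).sum ≤ ((st.2.tail ++ [(v, (hd st.2).2 + one v)]).map Prod.snd).sum
  cases h : st.2 with
  | nil => simp
  | cons a t =>
    have h1 : hd (a :: t) = a := rfl
    rw [h1, List.tail_cons, List.map_append, List.sum_append, List.map_cons, List.sum_cons,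
      List.map_cons, List.map_nil, List.sum_cons, List.sum_nil]
    show a.2 + (t.map Prod.snd).sum ≤ (t.map Prod.snd).sum + (a.2 + one v + 0)
    omega

theorem tab_W_zero (n σ : ℕ) (ξ : Row) (zs : List Cel) :
    ∀ st : Sta, n < (st.2.map Prod.snd).sum → W n σ ξ zs st = 0 := by
  induction zs with
  | nil =>
    intro st h
    show (if accept n σ st then 1 else 0) = 0
    have h1 : accept n σ st = false := by
      unfold accept
      have h2 : decide ((st.2.map Prod.snd).sum = n) = false := by
        rw [decide_eq_false_iff_not]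
        omega
      rw [h2, Bool.false_and]
    rw [h1]
    rfl
  | cons z zs ih =>
    intro st h
    show ((labs n).map fun v =>
      if allowed n σ ξ z st v then W n σ ξ zs (nxt st v) else 0).sum = 0
    have h1 : ((labs n).map fun v =>
        if allowed n σ ξ z st v then W n σ ξ zs (nxt st v) else 0) =
        (labs n).map fun _ => 0 := by
      refine List.map_congr_left ?_
      intro v _
      have h2 := ih (nxt st v) (lt_of_lt_of_le h (tab_sum_nxt st v))
      rw [h2]
      split <;> rfl
    rw [h1]
    simp

theorem tab_not_mem (n σ : ℕ) (ξ : Row) (zs : List Cel) (st : Sta) (h1 : st.1 ∈ labs n)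
    (h2 : st.2.length = wd n) (h3 : ∀ e ∈ st.2, e.1 ∈ labs n) (h : st ∉ states n) :
    W n σ ξ zs st = 0 := by
  refine tab_W_zero n σ ξ zs st ?_
  rw [tab_mem_states] at h
  push Not at h
  obtain ⟨e, he, he'⟩ := h h1 h2
  rw [tab_mem_ents] at he'
  push Not at he'
  have h4 := he' (h3 e he)
  have h5 : e.2 ≤ (st.2.map Prod.snd).sum :=
    List.single_le_sum (fun x _ => Nat.zero_le x) _ (List.mem_map_of_mem he)
  have h6 : n ≤ KK n := by
    unfold KK JJ LL
    nlinarith
  omega

theorem st_TAB : ST_TAB := by
  intro n σ ξ zs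
  induction zs with
  | nil =>
    intro st h1 h2 h3
    show look ((states n).map fun st => (st, if accept n σ st then 1 else 0)) st =
      if accept n σ st then 1 else 0
    rw [tab_look_map (fun st => if accept n σ st then 1 else 0)]
    by_cases h : st ∈ states n
    · rw [if_pos h]
    · rw [if_neg h]
      exact (tab_not_mem n σ ξ [] st h1 h2 h3 h).symm
  | cons z zs ih =>
    intro st h1 h2 h3
    show look ((states n).map fun st => (st, ((labs n).map fun v =>
      if allowed n σ ξ z st v then look (tab n σ ξ zs) (nxt st v) else 0).sum)) st =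
      W n σ ξ (z :: zs) st
    rw [tab_look_map (fun st => ((labs n).map fun v =>
      if allowed n σ ξ z st v then look (tab n σ ξ zs) (nxt st v) else 0).sum)]
    by_cases h : st ∈ states n
    · rw [if_pos h]
      show _ = ((labs n).map fun v =>
        if allowed n σ ξ z st v then W n σ ξ zs (nxt st v) else 0).sum
      congr 1
      refine List.map_congr_left ?_
      intro v hv
      have hwd : 0 < wd n := Nat.succ_pos _
      have h4 : look (tab n σ ξ zs) (nxt st v) = W n σ ξ zs (nxt st v) := by
        refine ih (nxt st v) hv ?_ ?_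
        · show (st.2.tail ++ [(v, (hd st.2).2 + one v)]).length = wd n
          rw [List.length_append, List.length_tail, h2, List.length_singleton]
          omega
        · intro e he
          have he' : e ∈ st.2.tail ++ [(v, (hd st.2).2 + one v)] := he
          rw [List.mem_append, List.mem_singleton] at he'
          rcases he' with he' | he'
          · exact h3 e (List.mem_of_mem_tail he')
          · rw [he']
            exact hv
      rw [h4]
    · rw [if_neg h]
      exact (tab_not_mem n σ ξ (z :: zs) st h1 h2 h3 h).symm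

end Pool.Agent.Helper92.PO
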